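import Mathlib

/-!
# MP_154e02_al: `X^[*] X` can have a square root with the kernel of `X` but no selfadjoint one

Let `H = diag(1, 1, -1, -1)` and let `X` be the matrix with `X e₁ = e₃`, `X e₂ = e₄`,
`X e₃ = 2 e₁`, `X e₄ = 2 e₂`. Then `X` is invertible and `X^[*] X = diag(-1, -1, -4, -4)`. It has the
real square root `Y = diag(J, 2 J)` with `J` the rotation by a right angle. A square root `A` commutes
with `X^[*] X`, so it is block diagonal, and if it is `H`-selfadjoint its upper left block is a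
Hermitian `2 × 2` matrix with square `-1`, which is impossible.
-/

set_option autoImplicit false

namespace Pool.Agent.Results.MP_154e02_al.NoSelfadjointRoot

open Matrix

/-- The `H`-adjoint `M^[*] = H⁻¹ M^* H`. -/
noncomputable def hadj {𝕜 : Type} [RCLike 𝕜] {n : ℕ} (H M : Matrix (Fin n) (Fin n) 𝕜) :
    Matrix (Fin n) (Fin n) 𝕜 :=
  H⁻¹ * Mᴴ * H

/-- There are `n ≥ 1`, an invertible Hermitian `H` and `X`, `Y` with `Y ^ 2 = X^[*] X` and
`ker Y = ker X` such that no `H`-selfadjoint matrix `A` satisfies `A ^ 2 = X^[*] X` (whatever its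
kernel), and such that `X` has no `H`-polar decomposition. -/
def Fails (𝕜 : Type) [RCLike 𝕜] : Prop :=
  ∃ (n : ℕ) (H X Y : Matrix (Fin n) (Fin n) 𝕜), 1 ≤ n ∧ H.IsHermitian ∧ IsUnit H.det ∧
    Y ^ 2 = hadj H X * X ∧ (∀ v : Fin n → 𝕜, Y *ᵥ v = 0 ↔ X *ᵥ v = 0) ∧
    (¬ ∃ A : Matrix (Fin n) (Fin n) 𝕜, hadj H A = A ∧ A ^ 2 = hadj H X * X) ∧
    ¬ ∃ U A : Matrix (Fin n) (Fin n) 𝕜, hadj H U * U = 1 ∧ hadj H A = A ∧ X = U * A

section

variable (𝕜 : Type) [RCLike 𝕜]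

/-- the matrix `H` -/
def H0 : Matrix (Fin 4) (Fin 4) 𝕜 := !![1, 0, 0, 0; 0, 1, 0, 0; 0, 0, -1, 0; 0, 0, 0, -1]

/-- the matrix `X` -/
def X0 : Matrix (Fin 4) (Fin 4) 𝕜 := !![0, 0, 2, 0; 0, 0, 0, 2; 1, 0, 0, 0; 0, 1, 0, 0]

/-- the matrix `Y` -/
def Y0 : Matrix (Fin 4) (Fin 4) 𝕜 := !![0, 1, 0, 0; -1, 0, 0, 0; 0, 0, 0, 2; 0, 0, -2, 0]

/-- the matrix `X^[*] X` -/
def S0 : Matrix (Fin 4) (Fin 4) 𝕜 := !![-1, 0, 0, 0; 0, -1, 0, 0; 0, 0, -4, 0; 0, 0, 0, -4]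

theorem H0_sq : H0 𝕜 * H0 𝕜 = 1 := by
  ext i j
  fin_cases i <;> fin_cases j <;> simp [H0, Matrix.mul_apply, Fin.sum_univ_four]

theorem H0_inv : (H0 𝕜)⁻¹ = H0 𝕜 := Matrix.inv_eq_left_inv (H0_sq 𝕜)

theorem H0_herm : (H0 𝕜).IsHermitian := by
  ext i j
  fin_cases i <;> fin_cases j <;> simp [H0, Matrix.conjTranspose_apply]

theorem X0_conj : (X0 𝕜)ᴴ = !![0, 0, 1, 0; 0, 0, 0, 1; 2, 0, 0, 0; 0, 2, 0, 0] := by
  ext i j
  fin_cases i <;> fin_cases j <;> simp [X0, Matrix.conjTranspose_apply]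

theorem S0_eq : hadj (H0 𝕜) (X0 𝕜) * X0 𝕜 = S0 𝕜 := by
  rw [hadj, H0_inv, X0_conj]
  ext i j
  fin_cases i <;> fin_cases j <;>
    simp [H0, X0, S0, Matrix.mul_apply, Fin.sum_univ_four] <;> norm_num

theorem hadj_apply (A : Matrix (Fin 4) (Fin 4) 𝕜) (i : Fin 4) :
    hadj (H0 𝕜) A i 0 = H0 𝕜 i i * star (A 0 i) := by
  rw [hadj, H0_inv]
  have h : ∀ k, (H0 𝕜 * Aᴴ) i k = H0 𝕜 i i * star (A k i) := by
    intro k
    fin_cases i <;> simp [H0, Matrix.mul_apply, Fin.sum_univ_four, Matrix.conjTranspose_apply]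
  rw [Matrix.mul_apply, Fin.sum_univ_four, h, h, h, h]
  simp [H0]

theorem Y0_sq : Y0 𝕜 ^ 2 = S0 𝕜 := by
  rw [sq]
  ext i j
  fin_cases i <;> fin_cases j <;>
    simp [Y0, S0, Matrix.mul_apply, Fin.sum_univ_four] <;> norm_num

variable {𝕜}

theorem no_root (A : Matrix (Fin 4) (Fin 4) 𝕜) (h1 : hadj (H0 𝕜) A = A) (h2 : A ^ 2 = S0 𝕜) :
    False := by
  have hc : A * S0 𝕜 = S0 𝕜 * A := by rw [← h2, ← pow_succ, ← pow_succ']
  have e02 := congrFun (congrFun hc 0) 2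
  have e03 := congrFun (congrFun hc 0) 3
  simp [S0, Matrix.mul_apply, Fin.sum_univ_four] at e02 e03
  have a02 : A 0 2 = 0 := by
    have : (3 : 𝕜) * A 0 2 = 0 := by linear_combination e02
    exact (mul_eq_zero.1 this).resolve_left (by norm_num)
  have a03 : A 0 3 = 0 := by
    have : (3 : 𝕜) * A 0 3 = 0 := by linear_combination e03
    exact (mul_eq_zero.1 this).resolve_left (by norm_num)
  have s00 := congrFun (congrFun h1 0) 0
  have s10 := congrFun (congrFun h1 1) 0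
  rw [hadj_apply] at s00 s10
  have t0 : H0 𝕜 0 0 = 1 := by simp [H0]
  have t1 : H0 𝕜 1 1 = 1 := by simp [H0]
  rw [t0, one_mul] at s00
  rw [t1, one_mul] at s10
  have q := congrFun (congrFun h2 0) 0
  rw [sq] at q
  simp [S0, Matrix.mul_apply, Fin.sum_univ_four, a02, a03] at q
  rw [← s10] at q
  have q' : A 0 0 * star (A 0 0) + A 0 1 * star (A 0 1) = -1 := by
    rw [show star (A 0 0) = A 0 0 from s00]
    exact q
  have hr := congrArg RCLike.re q'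
  simp only [map_add, RCLike.star_def, RCLike.mul_conj] at hr
  norm_cast at hr
  simp at hr
  nlinarith [sq_nonneg ‖A 0 0‖, sq_nonneg ‖A 0 1‖]

end

theorem fails (𝕜 : Type) [RCLike 𝕜] : Fails 𝕜 := by
  have hH := H0_sq 𝕜
  have hu : IsUnit (H0 𝕜).det := (Matrix.isUnit_iff_isUnit_det _).1 (IsUnit.of_mul_eq_one _ hH)
  have hY : ∀ v : Fin 4 → 𝕜, Y0 𝕜 *ᵥ v = 0 → v = 0 := by
    intro v h
    have h0 := congrFun h 0
    have h1 := congrFun h 1
    have h2 := congrFun h 2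
    have h3 := congrFun h 3
    simp [Y0, Matrix.mulVec, dotProduct, Fin.sum_univ_four] at h0 h1 h2 h3
    ext i
    fin_cases i <;> simp [h0, h1, h2, h3]
  have hX : ∀ v : Fin 4 → 𝕜, X0 𝕜 *ᵥ v = 0 → v = 0 := by
    intro v h
    have h0 := congrFun h 0
    have h1 := congrFun h 1
    have h2 := congrFun h 2
    have h3 := congrFun h 3
    simp [X0, Matrix.mulVec, dotProduct, Fin.sum_univ_four] at h0 h1 h2 h3
    ext i
    fin_cases i <;> simp [h0, h1, h2, h3]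
  refine ⟨4, H0 𝕜, X0 𝕜, Y0 𝕜, by norm_num, H0_herm 𝕜, hu, ?_, ?_, ?_, ?_⟩
  · rw [S0_eq, Y0_sq]
  · intro v
    constructor
    · intro h
      rw [hY v h, Matrix.mulVec_zero]
    · intro h
      rw [hX v h, Matrix.mulVec_zero]
  · rintro ⟨A, h1, h2⟩
    rw [S0_eq] at h2
    exact no_root A h1 h2
  · rintro ⟨U, A, h1, h2, h3⟩
    refine no_root A h2 ?_
    rw [← S0_eq, h3]
    have e : hadj (H0 𝕜) (U * A) = hadj (H0 𝕜) A * hadj (H0 𝕜) U := by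
      simp only [hadj, Matrix.conjTranspose_mul]
      rw [H0_inv]
      calc H0 𝕜 * (Aᴴ * Uᴴ) * H0 𝕜 = H0 𝕜 * Aᴴ * 1 * Uᴴ * H0 𝕜 := by
            simp only [Matrix.mul_one, Matrix.mul_assoc]
        _ = H0 𝕜 * Aᴴ * (H0 𝕜 * H0 𝕜) * Uᴴ * H0 𝕜 := by rw [hH]
        _ = _ := by simp only [Matrix.mul_assoc]
    rw [e, h2, Matrix.mul_assoc, ← Matrix.mul_assoc (hadj (H0 𝕜) U), h1, Matrix.one_mul, sq]

/-- **Negative answer to Q1**, both for `𝔽 = ℝ` and for `𝔽 = ℂ`. -/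
theorem result : Fails ℝ ∧ Fails ℂ := ⟨fails ℝ, fails ℂ⟩

end Pool.Agent.Results.MP_154e02_al.NoSelfadjointRoot
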